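import Mathlib

/-!
Degree arguments for semi-conjugate polynomials over a field of characteristic zero.
-/

namespace Pool.Agent.H86.PolyInter

open Polynomial

variable {K : Type*} [Field K]

/-- the degree of a sum of two polynomials whose degrees differ or are both zero -/
theorem natDegree_add_of_ne {x y : K[X]} (h : x.natDegree = y.natDegree → x.natDegree = 0) :
    (x + y).natDegree = max x.natDegree y.natDegree := by
  rcases lt_trichotomy x.natDegree y.natDegree with h1 | h1 | h1
  · rw [natDegree_add_eq_right_of_natDegree_lt h1, max_eq_right h1.le]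
  · have h0 := h h1
    have h2 : (x + y).natDegree ≤ 0 := by
      refine (natDegree_add_le _ _).trans ?_
      rw [← h1, h0]; simp
    have h3 : y.natDegree = 0 := by rw [← h1, h0]
    rw [h0, h3]; simpa using h2
  · rw [natDegree_add_eq_left_of_natDegree_lt h1, max_eq_left h1.le]

/-- powers: size and top coefficient of `(p+e)^(j+1) - p^(j+1)` -/
theorem pow_bracket (p e : K[X]) (m k : ℕ) (hp : p.natDegree = m) (he : e.natDegree = k)
    (hkm : k < m) (j : ℕ) :
    ((p + e) ^ (j + 1) - p ^ (j + 1)).natDegree ≤ j * m + k ∧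
    ((p + e) ^ (j + 1) - p ^ (j + 1)).coeff (j * m + k) =
      (j + 1 : ℕ) * p.leadingCoeff ^ j * e.leadingCoeff := by
  induction j with
  | zero =>
    constructor
    · simp [he]
    · simp [← he]
  | succ j ih =>
    obtain ⟨ih1, ih2⟩ := ih
    have hid : (p + e) ^ (j + 1 + 1) - p ^ (j + 1 + 1) =
        (p + e) * ((p + e) ^ (j + 1) - p ^ (j + 1)) + p ^ (j + 1) * e := by ring
    have hpe : (p + e).natDegree = m := by
      rw [natDegree_add_eq_left_of_natDegree_lt (by rw [hp, he]; exact hkm), hp]
    have hpe' : (p + e).coeff m = p.leadingCoeff := by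
      rw [coeff_add, coeff_eq_zero_of_natDegree_lt (p := e) (by rw [he]; exact hkm), add_zero, ← hp]
      rfl
    have hpj : (p ^ (j + 1)).natDegree ≤ (j + 1) * m := by
      rw [← hp]; exact natDegree_pow_le
    have hpj' : (p ^ (j + 1)).coeff ((j + 1) * m) = p.leadingCoeff ^ (j + 1) := by
      rw [← hp, mul_comm (j+1), ← coeff_pow_mul_natDegree, mul_comm]
    have hexp : (j + 1) * m + k = m + (j * m + k) := by ring
    constructor
    · rw [hid]
      refine natDegree_add_le_of_degree_le ?_ ?_
      · refine natDegree_mul_le.trans ?_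
        rw [hpe, hexp]
        omega
      · refine natDegree_mul_le.trans ?_
        rw [he]; omega
    · rw [hid, coeff_add]
      have h1 : ((p + e) * ((p + e) ^ (j + 1) - p ^ (j + 1))).coeff ((j + 1) * m + k) =
          p.leadingCoeff * ((j + 1 : ℕ) * p.leadingCoeff ^ j * e.leadingCoeff) := by
        rw [hexp, coeff_mul_add_eq_of_natDegree_le hpe.le ih1, hpe', ih2]
      have h2 : (p ^ (j + 1) * e).coeff ((j + 1) * m + k) =
          p.leadingCoeff ^ (j + 1) * e.leadingCoeff := by
        rw [coeff_mul_add_eq_of_natDegree_le hpj he.le, hpj', ← he]; rfl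
      rw [h1, h2]
      push_cast
      ring

/-- the degree of `G(p+e) - G(p)` -/
theorem bracket [CharZero K] (G p e : K[X]) (D m k : ℕ) (hG : G.natDegree = D + 1)
    (hp : p.natDegree = m) (he : e.natDegree = k) (he0 : e ≠ 0) (hkm : k < m) :
    (G.comp (p + e) - G.comp p).natDegree = D * m + k := by
  have hp0 : p ≠ 0 := by
    rintro rfl
    simp at hp; omega
  have hG0 : G ≠ 0 := by
    rintro rfl
    simp at hG
  have hsum : G.comp (p + e) - G.comp p =
      ∑ i ∈ Finset.range (D + 2), C (G.coeff i) * ((p + e) ^ i - p ^ i) := by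
    have h1 : ∀ q : K[X], G.comp q = ∑ i ∈ Finset.range (D + 2), C (G.coeff i) * q ^ i := by
      intro q
      rw [comp, eval₂_eq_sum_range, hG]
    rw [h1, h1, ← Finset.sum_sub_distrib]
    refine Finset.sum_congr rfl fun i _ => ?_
    ring
  rw [hsum, Finset.sum_range_succ, Finset.sum_range_succ']
  simp only [pow_zero, sub_self, mul_zero, add_zero]
  have hb := pow_bracket p e m k hp he hkm
  have htop : (C (G.coeff (D + 1)) * ((p + e) ^ (D + 1) - p ^ (D + 1))).natDegree = D * m + k := by
    have hc : G.coeff (D + 1) ≠ 0 := by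
      rw [← hG]; exact leadingCoeff_ne_zero.mpr hG0
    rw [natDegree_C_mul hc]
    refine le_antisymm (hb D).1 ?_
    refine le_natDegree_of_ne_zero ?_
    rw [(hb D).2]
    refine mul_ne_zero (mul_ne_zero ?_ ?_) ?_
    · exact_mod_cast Nat.succ_ne_zero D
    · exact pow_ne_zero _ (leadingCoeff_ne_zero.mpr hp0)
    · exact leadingCoeff_ne_zero.mpr he0
  rcases Nat.eq_zero_or_pos D with rfl | hD
  · simpa using htop
  · have hlow : (∑ i ∈ Finset.range D, C (G.coeff (i + 1)) * ((p + e) ^ (i + 1) - p ^ (i + 1))).natDegree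
        ≤ (D - 1) * m + k := by
      refine natDegree_sum_le_of_forall_le _ _ fun i hi => ?_
      have hi' := Finset.mem_range.mp hi
      refine (natDegree_C_mul_le _ _).trans ((hb i).1.trans ?_)
      have : i ≤ D - 1 := by omega
      gcongr
    have hlt : (D - 1) * m + k < D * m + k := by
      obtain ⟨D', rfl⟩ : ∃ D', D = D' + 1 := ⟨D - 1, by omega⟩
      simp only [Nat.add_sub_cancel]
      nlinarith
    rw [natDegree_add_eq_right_of_natDegree_lt (by rw [htop]; exact lt_of_le_of_lt hlow hlt), htop]

/-- subtracting a polynomial with the same top term lowers the degree -/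
theorem natDegree_sub_lt' {f g : K[X]} (hf : 0 < f.natDegree) (hfg : f.natDegree = g.natDegree)
    (hl : f.leadingCoeff = g.leadingCoeff) : (f - g).natDegree < f.natDegree := by
  have hf0 : f ≠ 0 := by rintro rfl; simp at hf
  have hg0 : g ≠ 0 := by rintro rfl; simp at hfg; omega
  by_cases h : f - g = 0
  · rw [h]; simpa using hf
  · refine natDegree_lt_natDegree h ?_
    refine degree_sub_lt_left ?_ hf0 hl
    rw [degree_eq_natDegree hf0, degree_eq_natDegree hg0, hfg]

/-- a multiple of a power of `u` with prescribed top term -/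
theorem exists_top (u f : K[X]) (hu : 0 < u.natDegree) (hf : f ≠ 0) (h : u.natDegree ∣ f.natDegree) :
    ∃ G : K[X], (G.comp u).natDegree = f.natDegree ∧ (G.comp u).leadingCoeff = f.leadingCoeff := by
  obtain ⟨q, hq⟩ := h
  have hu0 : u ≠ 0 := by rintro rfl; simp at hu
  have hlu : u.leadingCoeff ^ q ≠ 0 := pow_ne_zero _ (leadingCoeff_ne_zero.mpr hu0)
  have hlf : f.leadingCoeff ≠ 0 := leadingCoeff_ne_zero.mpr hf
  refine ⟨C (f.leadingCoeff / u.leadingCoeff ^ q) * X ^ q, ?_, ?_⟩
  · rw [mul_comp, C_comp, pow_comp, X_comp, natDegree_C_mul (div_ne_zero hlf hlu), natDegree_pow, hq,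
      mul_comm]
  · rw [mul_comp, C_comp, pow_comp, X_comp, leadingCoeff_mul, leadingCoeff_C, leadingCoeff_pow,
      div_mul_cancel₀ _ hlu]

/-- division with remainder by composition with `u` -/
theorem decomp_one (u : K[X]) (hu : 0 < u.natDegree) (f : K[X]) :
    ∃ G g : K[X], f = G.comp u + g ∧ (u.natDegree ∣ g.natDegree → g.natDegree = 0) ∧
      g.natDegree ≤ f.natDegree := by
  induction hn : f.natDegree using Nat.strong_induction_on generalizing f with
  | _ n ih =>
    by_cases hdiv : u.natDegree ∣ f.natDegree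
    · rcases Nat.eq_zero_or_pos f.natDegree with h0 | hpos
      · exact ⟨0, f, by simp, fun _ => h0, hn.le⟩
      · have hf0 : f ≠ 0 := by rintro rfl; simp at hpos
        obtain ⟨G0, hG1, hG2⟩ := exists_top u f hu hf0 hdiv
        have hlt := natDegree_sub_lt' hpos hG1.symm hG2.symm
        obtain ⟨G, g, h1, h2, h3⟩ := ih _ (hn ▸ hlt) (f - G0.comp u) rfl
        refine ⟨G0 + G, g, ?_, h2, ?_⟩
        · rw [add_comp, add_assoc, ← h1]; ring
        · exact h3.trans (hn ▸ hlt.le)
    · exact ⟨0, f, by simp, fun h => absurd h hdiv, hn.le⟩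

/-- division with remainder by compositions with `α` and with `β` -/
theorem decomp_two (α β : K[X]) (hα : 0 < α.natDegree) (hβ : 0 < β.natDegree) (f : K[X]) :
    ∃ u v g : K[X], f = u.comp α + v.comp β + g ∧ (α.natDegree ∣ g.natDegree → g.natDegree = 0) ∧
      (β.natDegree ∣ g.natDegree → g.natDegree = 0) ∧
      (u.comp α).natDegree ≤ f.natDegree ∧ (v.comp β).natDegree ≤ f.natDegree ∧
      g.natDegree ≤ f.natDegree := by
  induction hn : f.natDegree using Nat.strong_induction_on generalizing f with
  | _ n ih =>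
    rcases Nat.eq_zero_or_pos f.natDegree with h0 | hpos
    · exact ⟨0, 0, f, by simp, fun _ => h0, fun _ => h0, by simp, by simp, hn.le⟩
    have hf0 : f ≠ 0 := by rintro rfl; simp at hpos
    by_cases hdiv : α.natDegree ∣ f.natDegree
    · obtain ⟨G0, hG1, hG2⟩ := exists_top α f hα hf0 hdiv
      have hlt := natDegree_sub_lt' hpos hG1.symm hG2.symm
      obtain ⟨u, v, g, h1, h2, h3, h4, h5, h6⟩ := ih _ (hn ▸ hlt) (f - G0.comp α) rfl
      have hle : (f - G0.comp α).natDegree ≤ n := hn ▸ hlt.le
      refine ⟨G0 + u, v, g, ?_, h2, h3, ?_, h5.trans hle, h6.trans hle⟩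
      · rw [add_comp]
        linear_combination h1
      · rw [add_comp]
        exact natDegree_add_le_of_degree_le (by rw [hG1, hn]) (h4.trans hle)
    · by_cases hdiv' : β.natDegree ∣ f.natDegree
      · obtain ⟨G0, hG1, hG2⟩ := exists_top β f hβ hf0 hdiv'
        have hlt := natDegree_sub_lt' hpos hG1.symm hG2.symm
        obtain ⟨u, v, g, h1, h2, h3, h4, h5, h6⟩ := ih _ (hn ▸ hlt) (f - G0.comp β) rfl
        have hle : (f - G0.comp β).natDegree ≤ n := hn ▸ hlt.le
        refine ⟨u, G0 + v, g, ?_, h2, h3, h4.trans hle, ?_, h6.trans hle⟩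
        · rw [add_comp]
          linear_combination h1
        · rw [add_comp]
          exact natDegree_add_le_of_degree_le (by rw [hG1, hn]) (h5.trans hle)
      · exact ⟨0, 0, f, by simp, fun h => absurd h hdiv, fun h => absurd h hdiv', by simp, by simp,
          hn.le⟩

/-- right cancellation of a non-constant polynomial -/
theorem comp_right_cancel {p q u : K[X]} (hu : 0 < u.natDegree) (h : p.comp u = q.comp u) : p = q := by
  have h1 : (p - q).comp u = 0 := by rw [sub_comp, h, sub_self]
  rcases comp_eq_zero_iff.mp h1 with h2 | ⟨_, h2⟩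
  · exact sub_eq_zero.mp h2
  · rw [h2] at hu; simp at hu

/-- if `u` intertwines a polynomial commuting with `P`, then `u` intertwines `P` -/
theorem descend [CharZero K] (u P A S : K[X]) (hu : 0 < u.natDegree) (hA : 2 ≤ A.natDegree)
    (hcomm : A.comp P = P.comp A) (hS : u.comp A = S.comp u) :
    ∃ T : K[X], u.comp P = T.comp u := by
  obtain ⟨T, e, h1, h2, h3⟩ := decomp_one u hu (u.comp P)
  by_cases hk : e.natDegree = 0
  · refine ⟨T + C (e.coeff 0), ?_⟩
    rw [add_comp, C_comp, h1, ← eq_C_of_natDegree_eq_zero hk]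
  exfalso
  have hndvd : ¬ u.natDegree ∣ e.natDegree := fun h => hk (h2 h)
  have he0 : e ≠ 0 := by rintro rfl; simp at hk
  have hdA : A.natDegree = S.natDegree := by
    have := congrArg natDegree hS
    rw [natDegree_comp, natDegree_comp, mul_comm] at this
    exact Nat.eq_of_mul_eq_mul_right hu this
  have hlt : e.natDegree < (u.comp P).natDegree := by
    refine lt_of_le_of_ne h3 ?_
    intro h
    apply hndvd
    rw [h, natDegree_comp]
    exact dvd_mul_right _ _
  have hTu : (T.comp u).natDegree = (u.comp P).natDegree := by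
    have : T.comp u = u.comp P - e := by rw [h1]; ring
    rw [this, natDegree_sub_eq_left_of_natDegree_lt hlt]
  have hM : (u.comp P).natDegree = u.natDegree * P.natDegree := natDegree_comp
  -- the identity
  have hid : (e.comp A) = (S.comp (T.comp u + e) - S.comp (T.comp u)) + (S.comp T - T.comp S).comp u := by
    have e1 : (u.comp P).comp A = (T.comp u + e).comp A := by rw [← h1]
    have e2 : (u.comp P).comp A = S.comp (T.comp u + e) := by
      rw [← h1, comp_assoc, ← hcomm, ← comp_assoc, hS, comp_assoc]
    rw [add_comp, comp_assoc T u A, hS] at e1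
    rw [sub_comp, comp_assoc, comp_assoc]
    have e3 : T.comp (S.comp u) = (T.comp S).comp u := (comp_assoc _ _ _).symm
    rw [e2] at e1
    rw [e1]; ring
  obtain ⟨D, hD⟩ : ∃ D, S.natDegree = D + 1 := ⟨S.natDegree - 1, by omega⟩
  have hbr := bracket S (T.comp u) e D _ _ hD rfl rfl he0 (by rw [hTu]; exact hlt)
  have hDpos : 1 ≤ D := by omega
  rw [hTu] at hbr
  have hcmp : (e.comp A).natDegree < D * (u.comp P).natDegree + e.natDegree := by
    rw [natDegree_comp, hdA, hD]
    nlinarith
  have hid2 : (S.comp T - T.comp S).comp u =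
      e.comp A - (S.comp (T.comp u + e) - S.comp (T.comp u)) := by rw [hid]; ring
  have hdeg : ((S.comp T - T.comp S).comp u).natDegree = D * (u.comp P).natDegree + e.natDegree := by
    rw [hid2, natDegree_sub_eq_right_of_natDegree_lt (by rw [hbr]; exact hcmp), hbr]
  rw [natDegree_comp, hM] at hdeg
  apply hndvd
  have h5 : u.natDegree ∣ D * (u.natDegree * P.natDegree) + e.natDegree := by
    rw [← hdeg]; exact dvd_mul_left _ _
  have h6 : u.natDegree ∣ D * (u.natDegree * P.natDegree) :=
    dvd_mul_of_dvd_right (dvd_mul_right _ _) _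
  exact (Nat.dvd_add_right h6).mp h5

/-- the degree of `H(B) + f(α) - g(β)` when the three degrees are independent -/
theorem three_terms (α β H f g B : K[X]) (N : ℕ) (s t : ℕ) (hN : 0 < N) (hs : N = α.natDegree * s)
    (ht : N = β.natDegree * t) (hlcm : ∀ M, α.natDegree ∣ M → β.natDegree ∣ M → N ∣ M)
    (hB : B.natDegree = N) (hf : s ∣ f.natDegree → f.natDegree = 0)
    (hg : t ∣ g.natDegree → g.natDegree = 0) :
    (H.comp B + f.comp α - g.comp β).natDegree =
      max (max (H.natDegree * N) (f.natDegree * α.natDegree)) (g.natDegree * β.natDegree) := by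
  have hα : 0 < α.natDegree := Nat.pos_of_ne_zero (by rintro h; rw [h, zero_mul] at hs; omega)
  have hβ : 0 < β.natDegree := Nat.pos_of_ne_zero (by rintro h; rw [h, zero_mul] at ht; omega)
  have hfα : N ∣ f.natDegree * α.natDegree → f.natDegree = 0 := by
    intro h
    rw [hs, mul_comm α.natDegree s] at h
    exact hf (Nat.dvd_of_mul_dvd_mul_right hα h)
  have hgβ : N ∣ g.natDegree * β.natDegree → g.natDegree = 0 := by
    intro h
    rw [ht, mul_comm β.natDegree t] at h
    exact hg (Nat.dvd_of_mul_dvd_mul_right hβ h)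
  have h1 : (H.comp B + f.comp α).natDegree =
      max (H.natDegree * N) (f.natDegree * α.natDegree) := by
    rw [natDegree_add_of_ne, natDegree_comp, natDegree_comp, hB]
    rw [natDegree_comp, natDegree_comp, hB]
    intro h
    have h0 := hfα (h ▸ dvd_mul_left _ _)
    rw [h, h0, zero_mul]
  rw [sub_eq_add_neg, natDegree_add_of_ne, h1, natDegree_neg, natDegree_comp]
  rw [h1, natDegree_neg, natDegree_comp]
  intro h
  rcases max_choice (H.natDegree * N) (f.natDegree * α.natDegree) with h2 | h2
  · rw [h2] at h ⊢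
    have h0 := hgβ (h ▸ dvd_mul_left _ _)
    rw [h, h0, zero_mul]
  · rw [h2] at h ⊢
    have h3 : N ∣ f.natDegree * α.natDegree :=
      hlcm _ (dvd_mul_left _ _) (h ▸ dvd_mul_left _ _)
    rw [hfα h3, zero_mul]

/-- two quotients of one polynomial have a common quotient, of the expected size -/
theorem common_quotient [CharZero K] (α β P Q R : K[X]) (hα : 0 < α.natDegree)
    (hβ : 0 < β.natDegree) (hR : 2 ≤ R.natDegree) (h1 : α.comp R = P.comp α)
    (h2 : β.comp R = Q.comp β) :
    ∃ u v S : K[X], u.comp α = v.comp β ∧ u.comp P = S.comp u ∧ v.comp Q = S.comp v ∧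
      u.natDegree * α.natDegree = Nat.lcm α.natDegree β.natDegree ∧
      v.natDegree * β.natDegree = Nat.lcm α.natDegree β.natDegree := by
  set N := Nat.lcm α.natDegree β.natDegree with hNdef
  have hN : 0 < N := Nat.lcm_pos hα hβ
  obtain ⟨s, hs⟩ : α.natDegree ∣ N := Nat.dvd_lcm_left _ _
  obtain ⟨t, ht⟩ : β.natDegree ∣ N := Nat.dvd_lcm_right _ _
  have hs0 : 0 < s := Nat.pos_of_ne_zero (by rintro rfl; simp at hs; omega)
  have ht0 : 0 < t := Nat.pos_of_ne_zero (by rintro rfl; simp at ht; omega)
  have hα0 : α ≠ 0 := by rintro rfl; simp at hα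
  have hβ0 : β ≠ 0 := by rintro rfl; simp at hβ
  have hlcm : ∀ M, α.natDegree ∣ M → β.natDegree ∣ M → N ∣ M := fun M => Nat.lcm_dvd
  have hdP : P.natDegree = R.natDegree := by
    have := congrArg natDegree h1
    rw [natDegree_comp, natDegree_comp, mul_comm] at this
    exact (Nat.eq_of_mul_eq_mul_right hα this).symm
  have hdQ : Q.natDegree = R.natDegree := by
    have := congrArg natDegree h2
    rw [natDegree_comp, natDegree_comp, mul_comm] at this
    exact (Nat.eq_of_mul_eq_mul_right hβ this).symm
  -- first choice of u and v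
  obtain ⟨u, v, e, hu, hv, huv, he1, he2, heN⟩ : ∃ u v e : K[X], u.natDegree = s ∧ v.natDegree = t ∧
      u.comp α = v.comp β + e ∧ (α.natDegree ∣ e.natDegree → e.natDegree = 0) ∧
      (β.natDegree ∣ e.natDegree → e.natDegree = 0) ∧ e.natDegree < N := by
    have hlα : α.leadingCoeff ^ s ≠ 0 := pow_ne_zero _ (leadingCoeff_ne_zero.mpr hα0)
    have hlβ : β.leadingCoeff ^ t ≠ 0 := pow_ne_zero _ (leadingCoeff_ne_zero.mpr hβ0)
    set u0 : K[X] := C (β.leadingCoeff ^ t) * X ^ s with hu0
    set v0 : K[X] := C (α.leadingCoeff ^ s) * X ^ t with hv0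
    have hu0d : u0.natDegree = s := by rw [hu0, natDegree_C_mul_X_pow _ _ hlβ]
    have hv0d : v0.natDegree = t := by rw [hv0, natDegree_C_mul_X_pow _ _ hlα]
    have hu0N : (u0.comp α).natDegree = N := by rw [natDegree_comp, hu0d, hs, mul_comm]
    have hv0N : (v0.comp β).natDegree = N := by rw [natDegree_comp, hv0d, ht, mul_comm]
    have hl : (u0.comp α).leadingCoeff = (v0.comp β).leadingCoeff := by
      rw [leadingCoeff_comp hα.ne', leadingCoeff_comp hβ.ne', hu0d, hv0d, hu0, hv0,
        leadingCoeff_C_mul_X_pow, leadingCoeff_C_mul_X_pow, mul_comm]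
    have hlt := natDegree_sub_lt' (by rw [hu0N]; exact hN) (by rw [hu0N, hv0N]) hl
    rw [hu0N] at hlt
    obtain ⟨u1, v1, g, g1, g2, g3, g4, g5, g6⟩ := decomp_two α β hα hβ (u0.comp α - v0.comp β)
    have hu1 : u1.natDegree < s := by
      have := g4.trans_lt hlt
      rw [natDegree_comp, hs, mul_comm α.natDegree s] at this
      exact lt_of_mul_lt_mul_right this (Nat.zero_le _)
    have hv1 : v1.natDegree < t := by
      have := g5.trans_lt hlt
      rw [natDegree_comp, ht, mul_comm β.natDegree t] at this
      exact lt_of_mul_lt_mul_right this (Nat.zero_le _)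
    refine ⟨u0 - u1, v0 + v1, g, ?_, ?_, ?_, g2, g3, g6.trans_lt hlt⟩
    · rw [natDegree_sub_eq_left_of_natDegree_lt (by rw [hu0d]; exact hu1), hu0d]
    · rw [natDegree_add_eq_left_of_natDegree_lt (by rw [hv0d]; exact hv1), hv0d]
    · rw [sub_comp, add_comp]
      linear_combination g1
  -- the main estimate
  have key : ∀ v' : K[X], v'.natDegree = t → ∀ e' : K[X], u.comp α = v'.comp β + e' →
      ∃ G G' f g : K[X], u.comp P = G.comp u + f ∧ v'.comp Q = G'.comp v' + g ∧
        G.natDegree = R.natDegree ∧
        (((G - G').comp (v'.comp β) + f.comp α - g.comp β).natDegree =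
          max (max ((G - G').natDegree * N) (f.natDegree * α.natDegree)) (g.natDegree * β.natDegree)) ∧
        (N ∣ f.natDegree * α.natDegree → f.natDegree = 0) ∧
        (N ∣ g.natDegree * β.natDegree → g.natDegree = 0) ∧
        e'.comp R = (G.comp (v'.comp β + e') - G.comp (v'.comp β)) +
          ((G - G').comp (v'.comp β) + f.comp α - g.comp β) := by
    intro v' hv' e' he'
    obtain ⟨G, f, a1, a2, a3⟩ := decomp_one u (by rw [hu]; exact hs0) (u.comp P)
    obtain ⟨G', g, b1, b2, b3⟩ := decomp_one v' (by rw [hv']; exact ht0) (v'.comp Q)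
    rw [hu] at a2
    rw [hv'] at b2
    refine ⟨G, G', f, g, a1, b1, ?_, ?_, ?_, ?_, ?_⟩
    · have hlt : f.natDegree < (u.comp P).natDegree := by
        refine lt_of_le_of_ne a3 fun h => ?_
        have h5 : (u.comp P).natDegree = s * P.natDegree := by rw [natDegree_comp, hu]
        have h6 := a2 (by rw [h, h5]; exact dvd_mul_right _ _)
        rw [h6, h5, hdP] at h
        have : 0 < s * R.natDegree := by positivity
        omega
      have h7 : (G.comp u).natDegree = (u.comp P).natDegree := by
        have : G.comp u = u.comp P - f := by rw [a1]; ring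
        rw [this, natDegree_sub_eq_left_of_natDegree_lt hlt]
      rw [natDegree_comp, natDegree_comp, hu, hdP, mul_comm] at h7
      exact Nat.eq_of_mul_eq_mul_left hs0 h7
    · exact three_terms α β _ f g _ N s t hN hs ht hlcm
        (by rw [natDegree_comp, hv', ht, mul_comm]) a2 b2
    · intro h
      rw [hs, mul_comm α.natDegree s] at h
      exact a2 (Nat.dvd_of_mul_dvd_mul_right hα h)
    · intro h
      rw [ht, mul_comm β.natDegree t] at h
      exact b2 (Nat.dvd_of_mul_dvd_mul_right hβ h)
    · have c1 : (u.comp α).comp R = (G.comp u + f).comp α := by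
        rw [← a1, comp_assoc, h1, comp_assoc]
      have c2 : (v'.comp β).comp R = (G'.comp v' + g).comp β := by
        rw [← b1, comp_assoc, h2, comp_assoc]
      rw [he', add_comp, c2, add_comp, add_comp, comp_assoc, comp_assoc, he'] at c1
      rw [sub_comp]
      linear_combination c1
  -- `e` is constant
  have he0 : e.natDegree = 0 := by
    by_contra hk
    have hene : e ≠ 0 := by rintro rfl; simp at hk
    obtain ⟨G, G', f, g, _, _, hGd, hmax, hfN, hgN, hid⟩ := key v hv e huv
    have hBN : (v.comp β).natDegree = N := by rw [natDegree_comp, hv, ht, mul_comm]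
    obtain ⟨D, hD⟩ : ∃ D, G.natDegree = D + 1 := ⟨G.natDegree - 1, by omega⟩
    have hbr := bracket G (v.comp β) e D N e.natDegree hD hBN rfl hene heN
    have hD1 : 1 ≤ D := by omega
    have hcmp : (e.comp R).natDegree < D * N + e.natDegree := by
      rw [natDegree_comp, ← hGd, hD]
      nlinarith
    have hdeg : ((G - G').comp (v.comp β) + f.comp α - g.comp β).natDegree = D * N + e.natDegree := by
      have : ((G - G').comp (v.comp β) + f.comp α - g.comp β) =
          e.comp R - (G.comp (v.comp β + e) - G.comp (v.comp β)) := by rw [hid]; ring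
      rw [this, natDegree_sub_eq_right_of_natDegree_lt (by rw [hbr]; exact hcmp), hbr]
    rw [hmax] at hdeg
    have hda : ¬ α.natDegree ∣ D * N + e.natDegree := by
      intro h
      have : α.natDegree ∣ D * N := dvd_mul_of_dvd_right (hs ▸ dvd_mul_right _ _) _
      exact hk (he1 ((Nat.dvd_add_right this).mp h))
    have hdb : ¬ β.natDegree ∣ D * N + e.natDegree := by
      intro h
      have : β.natDegree ∣ D * N := dvd_mul_of_dvd_right (ht ▸ dvd_mul_right _ _) _
      exact hk (he2 ((Nat.dvd_add_right this).mp h))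
    rcases max_choice (max ((G - G').natDegree * N) (f.natDegree * α.natDegree))
      (g.natDegree * β.natDegree) with h | h
    · rw [h] at hdeg
      rcases max_choice ((G - G').natDegree * N) (f.natDegree * α.natDegree) with h' | h'
      · rw [h'] at hdeg
        apply hda
        rw [← hdeg]
        exact dvd_mul_of_dvd_right (hs ▸ dvd_mul_right _ _) _
      · rw [h'] at hdeg
        apply hda
        rw [← hdeg]
        exact dvd_mul_left _ _
    · rw [h] at hdeg
      apply hdb
      rw [← hdeg]
      exact dvd_mul_left _ _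
  -- absorb the constant
  have heC := eq_C_of_natDegree_eq_zero he0
  set v2 : K[X] := v + C (e.coeff 0) with hv2
  have hv2d : v2.natDegree = t := by rw [hv2, natDegree_add_C, hv]
  have huv2 : u.comp α = v2.comp β + 0 := by
    rw [huv, hv2, add_comp, C_comp, add_zero, ← heC]
  obtain ⟨G, G', f, g, hG, hG', hGd, hmax, hfN, hgN, hid⟩ := key v2 hv2d 0 huv2
  rw [zero_comp, add_zero, sub_self, zero_add] at hid
  rw [← hid, natDegree_zero] at hmax
  have hf0 : f.natDegree = 0 := by
    have : f.natDegree * α.natDegree = 0 := by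
      have := le_max_right ((G - G').natDegree * N) (f.natDegree * α.natDegree)
      have := (this.trans (le_max_left _ (g.natDegree * β.natDegree)))
      omega
    rcases Nat.mul_eq_zero.mp this with h | h
    · exact h
    · omega
  have hg0 : g.natDegree = 0 := by
    have : g.natDegree * β.natDegree = 0 := by
      have := le_max_right (max ((G - G').natDegree * N) (f.natDegree * α.natDegree))
        (g.natDegree * β.natDegree)
      omega
    rcases Nat.mul_eq_zero.mp this with h | h
    · exact h
    · omega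
  have hGG : (G - G').natDegree = 0 := by
    have : (G - G').natDegree * N = 0 := by
      have := le_max_left ((G - G').natDegree * N) (f.natDegree * α.natDegree)
      have := (this.trans (le_max_left _ (g.natDegree * β.natDegree)))
      omega
    rcases Nat.mul_eq_zero.mp this with h | h
    · exact h
    · omega
  have hfC := eq_C_of_natDegree_eq_zero hf0
  have hgC := eq_C_of_natDegree_eq_zero hg0
  have hGC := eq_C_of_natDegree_eq_zero hGG
  refine ⟨u, v2, G + C (f.coeff 0), by rw [huv2, add_zero], ?_, ?_, ?_, ?_⟩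
  · rw [add_comp, C_comp, hG, ← hfC]
  · have h8 : G + C (f.coeff 0) = G' + C (g.coeff 0) := by
      have h9 := hid
      rw [hfC, hgC, hGC, C_comp, C_comp, C_comp] at h9
      have h10 : G = G' + C ((G - G').coeff 0) := by rw [← hGC]; ring
      rw [h10]
      linear_combination -h9
    rw [h8, add_comp (p := G'), C_comp, hG', ← hgC]
  · rw [hu, hs, mul_comm]
  · rw [hv2d, ht, mul_comm]

/-- linear polynomials are invertible under composition -/
theorem linear_inv (v : K[X]) (hv : v.natDegree = 1) :
    ∃ w : K[X], w.natDegree = 1 ∧ w.comp v = X ∧ v.comp w = X := by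
  obtain ⟨a, ha, b, rfl⟩ := natDegree_eq_one.mp hv
  refine ⟨C a⁻¹ * X + C (-(a⁻¹ * b)), ?_, ?_, ?_⟩
  · exact natDegree_linear (inv_ne_zero ha)
  · simp only [add_comp, mul_comp, C_comp, X_comp]
    have h : (C a⁻¹ : K[X]) * C a = 1 := by rw [← C_mul, inv_mul_cancel₀ ha, C_1]
    rw [C_neg, C_mul]
    linear_combination X * h
  · simp only [add_comp, mul_comp, C_comp, X_comp]
    have h : (C a⁻¹ : K[X]) * C a = 1 := by rw [← C_mul, inv_mul_cancel₀ ha, C_1]
    rw [C_neg, C_mul]
    linear_combination (X - C b) * h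

/-- no non-trivial translation commutes with a polynomial of degree at least two -/
theorem translation_trivial [CharZero K] (S : K[X]) (hS : 2 ≤ S.natDegree) (c : K)
    (h : (X + C c).comp S = S.comp (X + C c)) : c = 0 := by
  by_contra hc
  obtain ⟨D, hD⟩ : ∃ D, S.natDegree = D + 1 := ⟨S.natDegree - 1, by omega⟩
  have hb := bracket S X (C c) D 1 0 hD natDegree_X (natDegree_C c) (C_ne_zero.mpr hc) one_pos
  rw [← h, comp_X, add_comp, X_comp, C_comp, add_sub_cancel_left, natDegree_C] at hb
  omega

/-- polynomials of the same degree commuting with `S` differ by a linear map commuting with `S` -/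
theorem linear_of_commute [CharZero K] (S α β : K[X]) (hS : 2 ≤ S.natDegree) (hα : 0 < α.natDegree)
    (hd : α.natDegree = β.natDegree) (h1 : α.comp S = S.comp α) (h2 : β.comp S = S.comp β) :
    ∃ l : K[X], l.natDegree = 1 ∧ β = l.comp α ∧ l.comp S = S.comp l := by
  obtain ⟨u, v, S', e1, e2, e3, d1, d2⟩ := common_quotient α β S S S hα (hd ▸ hα) hS h1 h2
  rw [← hd, Nat.lcm_self] at d2 d1
  have hu : u.natDegree = 1 := Nat.eq_of_mul_eq_mul_right hα (by rw [d1, one_mul])
  have hv : v.natDegree = 1 := Nat.eq_of_mul_eq_mul_right hα (by rw [d2, one_mul])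
  obtain ⟨w, w1, w2, w3⟩ := linear_inv v hv
  refine ⟨w.comp u, by rw [natDegree_comp, w1, hu], ?_, ?_⟩
  · rw [comp_assoc, e1, ← comp_assoc, w2, X_comp]
  · have h3 : S.comp w = w.comp S' := by
      calc S.comp w = (w.comp v).comp (S.comp w) := by rw [w2, X_comp]
        _ = w.comp ((v.comp S).comp w) := by rw [comp_assoc, comp_assoc]
        _ = w.comp (S'.comp (v.comp w)) := by rw [e3, comp_assoc]
        _ = w.comp S' := by rw [w3, comp_X]
    rw [comp_assoc, e2, ← comp_assoc, ← h3, comp_assoc]

/-- two polynomials of the same degree commuting with `S` have a common quotient -/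
theorem quotient_of_commute [CharZero K] (S T T' : K[X]) (hS : 2 ≤ S.natDegree)
    (hT : 0 < T.natDegree) (hd : T.natDegree = T'.natDegree) (h1 : T.comp S = S.comp T)
    (h2 : T'.comp S = S.comp T') :
    ∃ w V : K[X], 0 < w.natDegree ∧ w.comp T = V.comp w ∧ w.comp T' = V.comp w := by
  obtain ⟨l, l1, l2, l3⟩ := linear_of_commute S T T' hS hT hd h1 h2
  have hTl : (T.comp l).natDegree = T.natDegree := by rw [natDegree_comp, l1, mul_one]
  have h4 : (T.comp l).comp S = S.comp (T.comp l) := by
    rw [comp_assoc, l3, ← comp_assoc, h1, comp_assoc]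
  obtain ⟨ν, n1, n2, n3⟩ := linear_of_commute S T (T.comp l) hS hT hTl.symm h1 h4
  obtain ⟨a, ha, b, hl'⟩ := natDegree_eq_one.mp l1
  obtain ⟨a', ha', b', hν'⟩ := natDegree_eq_one.mp n1
  have hl := hl'.symm
  have hν := hν'.symm
  have hT0 : T ≠ 0 := by rintro rfl; simp at hT
  have hS0 : S ≠ 0 := by rintro rfl; simp at hS
  by_cases h1a : a = 1
  · -- translation
    have hb : b = 0 := by
      apply translation_trivial S hS b
      rw [hl, h1a, C_1, one_mul] at l3
      exact l3
    refine ⟨X, T, by rw [natDegree_X]; exact one_pos, by rw [X_comp, comp_X], ?_⟩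
    rw [X_comp, comp_X, l2, hl, h1a, hb, C_1, one_mul, C_0, add_zero, X_comp]
  -- the two linear maps commute
  have hcom : l.comp ν = ν.comp l := by
    have hc : l.comp ν = (X + C ((a * b' + b) - (a' * b + b'))).comp (ν.comp l) := by
      rw [hl, hν]
      simp only [add_comp, mul_comp, sub_comp, C_comp, X_comp, C_add, C_sub, C_mul]
      ring
    set c := (a * b' + b) - (a' * b + b') with hcdef
    have h5 : (l.comp ν).comp S = S.comp (l.comp ν) := by
      rw [comp_assoc, n3, ← comp_assoc, l3, comp_assoc]
    have h6 : (ν.comp l).comp S = S.comp (ν.comp l) := by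
      rw [comp_assoc, l3, ← comp_assoc, n3, comp_assoc]
    have hpos : 0 < (ν.comp l).natDegree := by rw [natDegree_comp, l1, n1]; exact one_pos
    have h7 : ((X + C c).comp S).comp (ν.comp l) = (S.comp (X + C c)).comp (ν.comp l) := by
      rw [comp_assoc, ← h6, ← comp_assoc, ← hc, h5, hc, comp_assoc]
    have hc0 := translation_trivial S hS c (comp_right_cancel hpos h7)
    rw [hc, hc0, C_0, add_zero, X_comp]
  have hbb : a * b' + b = a' * b + b' := by
    have h8 := congrArg (fun q => coeff q 0) hcom
    rw [hl, hν] at h8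
    simpa using h8
  have h1a' : (1 - a) ≠ 0 := sub_ne_zero.mpr (Ne.symm h1a)
  -- leading coefficients
  have hau : a ^ (S.natDegree - 1) = 1 := by
    have h8 := congrArg leadingCoeff l3
    rw [leadingCoeff_comp (by omega), leadingCoeff_comp (by omega), l1, hl, leadingCoeff_linear ha,
      pow_one] at h8
    have h9 : a * S.leadingCoeff = a * a ^ (S.natDegree - 1) * S.leadingCoeff := by
      rw [h8, ← pow_succ', Nat.sub_add_cancel (by omega), mul_comm]
    have hlS := leadingCoeff_ne_zero.mpr hS0
    have h10 := mul_right_cancel₀ hlS h9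
    have h11 : a * 1 = a * a ^ (S.natDegree - 1) := by rw [mul_one]; exact h10
    exact (mul_left_cancel₀ ha h11).symm
  have haa : a' = a ^ T.natDegree := by
    have h8 := congrArg leadingCoeff n2
    rw [leadingCoeff_comp (by omega), leadingCoeff_comp (by omega), n1, hl, hν,
      leadingCoeff_linear ha, leadingCoeff_linear ha', pow_one] at h8
    have hlT := leadingCoeff_ne_zero.mpr hT0
    exact (mul_left_cancel₀ hlT (by rw [h8, mul_comm])).symm
  set s := orderOf a with hs
  have hs0 : 0 < s := by
    rw [hs, orderOf_pos_iff, isOfFinOrder_iff_pow_eq_one]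
    exact ⟨S.natDegree - 1, by omega, hau⟩
  have has : a ^ s = 1 := pow_orderOf_eq_one a
  set z := b / (1 - a) with hz
  have hzb : z * (1 - a) = b := div_mul_cancel₀ _ h1a'
  have hzb' : z * (1 - a') = b' := by
    have : z * (1 - a') * (1 - a) = b' * (1 - a) := by
      calc z * (1 - a') * (1 - a) = (z * (1 - a)) * (1 - a') := by ring
        _ = b' * (1 - a) := by rw [hzb]; linear_combination hbb
    exact mul_right_cancel₀ h1a' this
  set w : K[X] := (X - C z) ^ s with hw
  have hwd : w.natDegree = s := by rw [hw, natDegree_pow, natDegree_X_sub_C, mul_one]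
  have hXl : (X - C z : K[X]).comp l = C a * (X - C z) := by
    rw [hl]
    simp only [sub_comp, X_comp, C_comp]
    have : (C b : K[X]) = C z * (1 - C a) := by rw [← hzb, C_mul, C_sub, C_1]
    rw [this]; ring
  have hXν : (X - C z : K[X]).comp ν = C a' * (X - C z) := by
    rw [hν]
    simp only [sub_comp, X_comp, C_comp]
    have : (C b' : K[X]) = C z * (1 - C a') := by rw [← hzb', C_mul, C_sub, C_1]
    rw [this]; ring
  have hwl : w.comp l = w := by
    rw [hw, pow_comp, hXl, mul_pow, ← C_pow, has, C_1, one_mul]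
  have hwν : w.comp ν = w := by
    rw [hw, pow_comp, hXν, mul_pow, ← C_pow, haa, ← pow_mul, mul_comm T.natDegree s, pow_mul, has,
      one_pow, C_1, one_mul]
  obtain ⟨G, g, g1, g2, g3⟩ := decomp_one w (by rw [hwd]; exact hs0) (w.comp T)
  have hF : (w.comp T).comp l = w.comp T := by
    rw [comp_assoc, n2, ← comp_assoc, hwν]
  have hg : g.comp l = g := by
    have h12 := hF
    rw [g1, add_comp, comp_assoc, hwl] at h12
    exact add_left_cancel h12
  have hg0 : g.natDegree = 0 := by
    by_cases hgz : g = 0
    · rw [hgz, natDegree_zero]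
    apply g2
    rw [hwd, hs]
    apply orderOf_dvd_of_pow_eq_one
    have h13 := congrArg leadingCoeff hg
    rw [leadingCoeff_comp (by omega), hl, leadingCoeff_linear ha] at h13
    have hlg := leadingCoeff_ne_zero.mpr hgz
    exact mul_left_cancel₀ hlg (by rw [h13, mul_one])
  have hgC := eq_C_of_natDegree_eq_zero hg0
  have hV : w.comp T = (G + C (g.coeff 0)).comp w := by
    rw [add_comp, C_comp, g1, ← hgC]
  refine ⟨w, G + C (g.coeff 0), by rw [hwd]; exact hs0, hV, ?_⟩
  rw [l2, ← comp_assoc, hwl, hV]

end Pool.Agent.H86.PolyInter
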